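import Pool.Agent.S10.DuMain

/-!
# Project CD: pairs with the cohomology with compact supports of a manifold

`CDual K B n`: the cohomology with compact supports of the locally finite pair `(K, B)` over the field of two elements is
zero in the degrees less than `n`, of dimension one in the degree `n`.  (No fundamental cycle is given.)
-/

set_option autoImplicit false
set_option linter.unusedSectionVars false

open Finset Pointwise

namespace Pool.Agent.CD

open Pool.Agent.H37.TM Pool.Agent.S10

variable {U : Type} [DecidableEq U]

/-- the finite cochain `f` of `K` relative to `B` on the simplices with `j + 1` vertices is a cocycle -/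
def Cocy (K B : Set (Finset U)) (j : ℕ) (f : Finset U →₀ ZMod 2) : Prop := Rel K B ∅ (j + 1) f ∧ IsCob K B ∅ f 0

/-- the finite cochain `f` is the coboundary of a finite cochain of `K` relative to `B` on the simplices with `j`
vertices -/
def Cobd (K B : Set (Finset U)) (j : ℕ) (f : Finset U →₀ ZMod 2) : Prop :=
  ∃ g : Finset U →₀ ZMod 2, Rel K B ∅ j g ∧ IsCob K B ∅ g f

/-- The simplicial complex `K` is locally finite, `B` is a subcomplex, and the cohomology with compact supports of
`(K, B)` over the field of two elements is zero in the degrees less than `n` and of dimension one in the degree `n`. -/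
structure CDual (K B : Set (Finset U)) (n : ℕ) : Prop where
  ne : ∀ s ∈ K, s.Nonempty
  down : ∀ s ∈ K, ∀ t, t ⊆ s → t.Nonempty → t ∈ K
  bd_sub : B ⊆ K
  bd_down : ∀ s ∈ B, ∀ t, t ⊆ s → t.Nonempty → t ∈ B
  locfin : ∀ s ∈ K, {t | t ∈ K ∧ s ⊆ t}.Finite
  low : ∀ j < n, ∀ f, Cocy K B j f → Cobd K B j f
  one : ∃ f₀, Cocy K B n f₀ ∧ ¬ Cobd K B n f₀ ∧ ∀ f, Cocy K B n f → Cobd K B n f ∨ Cobd K B n (f + f₀)

end Pool.Agent.CD
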