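import Pool.Agent.CE.PTop
import Pool.Agent.CD.Defs

/-!
# Project CD: the evaluation at the fundamental cycle is invariant on cocycles

`Dual K B mu n (n + 1)` without any invariance of `mu`: the evaluation is an isomorphism from the cohomology with
compact supports in the degree `n` onto the field of two elements, thus it is invariant.
-/

set_option autoImplicit false
set_option linter.unusedSectionVars false

open Finset Pointwise
open scoped TensorProduct

noncomputable section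

namespace Pool.Agent.CD

open Pool.Agent.S11 Pool.Agent.S10 Pool.Agent.H37.TM Pool.Agent.CE

variable {H Λ U : Type} [Group H] [Group Λ] [DecidableEq U] [MulAction Λ U] {f : H → Λ} {K B mu : Set (Finset U)} {n : ℕ}

/-- the evaluation is zero on the coboundaries -/
theorem ev_cob (h : Crs f K B) (hD : Dual K B mu n (n + 1)) {b w : Finset U →₀ ZMod 2} (hb : Rel K B ∅ n b)
    (hc : IsCob K B ∅ b w) : ∑ᶠ t ∈ mu, w t = 0 := by
  classical
  have hmem : (fun (a : H) (s : Finset U) => if a = 1 then b s else 0) ∈ PC f K B n := by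
    refine ⟨fun a s hs => ?_, b.support.image fun t => (f 1)⁻¹ • t, fun a s hs => ?_⟩
    · by_cases ha : a = 1
      · have hs' : b s ≠ 0 := fun h0 => hs ((if_pos ha).trans h0)
        obtain ⟨h1, h2, -, h4⟩ := hb s hs'
        exact ⟨h1, h2, h4⟩
      · exact absurd (if_neg ha) hs
    · by_cases ha : a = 1
      · have hs' : b s ≠ 0 := fun h0 => hs ((if_pos ha).trans h0)
        subst ha
        exact ⟨(f 1)⁻¹ • s, mem_image.2 ⟨s, Finsupp.mem_support_iff.2 hs', rfl⟩, (smul_inv_smul _ _).symm⟩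
      · exact absurd (if_neg ha) hs
  have h1 := congrFun (mu_dP h hD ⟨_, hmem⟩) 1
  refine Eq.trans (finsum_mem_congr rfl fun t ht => ?_) h1
  obtain ⟨h2, h3, h4⟩ := hD.mu_sub t ht
  show w t = cobQ K B (n + 1) (fun s => if (1 : H) = 1 then b s else 0) t
  rw [cobQ_of _ h2 h3 h4, ← hc t h2 h3 (empty_subset _), sdiff_empty]
  exact sum_congr rfl fun v _ => (if_pos rfl).symm

/-- the translate of a finite cochain -/
def trn (g : Λ) (w : Finset U →₀ ZMod 2) : Finset U →₀ ZMod 2 :=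
  Finsupp.comapDomain (fun t => g • t) w fun _ _ _ _ hst => smul_left_cancel g hst

theorem trn_apply (g : Λ) (w : Finset U →₀ ZMod 2) (t : Finset U) : trn g w t = w (g • t) := rfl

theorem rel_trn (h : Crs f K B) (g : Λ) {q : ℕ} {w : Finset U →₀ ZMod 2} (hw : Rel K B ∅ q w) :
    Rel K B ∅ q (trn g w) := by
  intro t ht
  obtain ⟨h1, h2, -, h4⟩ := hw _ ht
  refine ⟨?_, fun h5 => h2 (h.B_mem g _ h5), empty_subset _, ?_⟩
  · have h5 := h.K_mem g⁻¹ _ h1
    rwa [inv_smul_smul] at h5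
  · rwa [Finset.card_smul_finset] at h4

theorem cob_trn (h : Crs f K B) (g : Λ) {w : Finset U →₀ ZMod 2} {z : Finset U → ZMod 2}
    (hw : IsCob K B ∅ w z) : IsCob K B ∅ (trn g w) (fun t => z (g • t)) := by
  intro t h1 h2 _
  have h3 : g • t ∉ B := fun h5 => h2 (by
    have h6 := h.B_mem g⁻¹ _ h5
    rwa [inv_smul_smul] at h6)
  have h4 := hw (g • t) (h.K_mem g _ h1) h3 (empty_subset _)
  rw [sdiff_empty] at h4 ⊢
  show ∑ v ∈ t, (trn g w) (t.erase v) = z (g • t)
  rw [← h4, sum_smul_set]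
  refine sum_congr rfl fun v _ => ?_
  show w (g • t.erase v) = w ((g • t).erase (g • v))
  rw [Pool.Agent.S11.erase_smul]

theorem ev_zero (h : Crs f K B) (hD : Dual K B mu n (n + 1)) (g : Λ) {w : Finset U →₀ ZMod 2}
    (hw : Rel K B ∅ (n + 1) w) (hc : IsCob K B ∅ w 0) (h0 : ∑ᶠ t ∈ mu, w t = 0) : ∑ᶠ t ∈ mu, trn g w t = 0 := by
  obtain ⟨b, hb1, hb2⟩ := hD.top w hw hc h0
  exact ev_cob h hD (rel_trn h g hb1) (cob_trn h g hb2)

/-- the translations do not change the evaluation of the cocycles -/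
theorem ev_tr (h : Crs f K B) (hD : Dual K B mu n (n + 1)) (g : Λ) {w : Finset U →₀ ZMod 2}
    (hw : Rel K B ∅ (n + 1) w) (hc : IsCob K B ∅ w 0) : ∑ᶠ t ∈ mu, w (g • t) = ∑ᶠ t ∈ mu, w t := by
  have h01 : ∀ a : ZMod 2, a ≠ 0 → a = 1 := by decide
  by_cases h0 : ∑ᶠ t ∈ mu, w t = 0
  · rw [h0]
    exact ev_zero h hD g hw hc h0
  · rw [h01 _ h0]
    refine h01 _ fun h1 => h0 ?_
    have h2 := ev_zero h hD g⁻¹ (w := trn g w) (rel_trn h g hw) (cob_trn h g hc) h1
    have h3 : trn g⁻¹ (trn g w) = w := by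
      refine Finsupp.ext fun t => ?_
      rw [trn_apply, trn_apply, smul_inv_smul]
    rwa [h3] at h2

/-- exactness in the top degree -/
theorem exact_mu (h : Crs f K B) (hD : Dual K B mu n (n + 1))
    {x : PC f K B (n + 1)} (hx : dP h (n + 1) (n + 1 + 1) x = 0) (hm : muP f K B mu (n + 1) x = 0) :
    ∃ y : PC f K B n, dP h n (n + 1) y = x := by
  refine exists_fill h x fun a => ?_
  obtain ⟨z, hz1, hz2, hz3⟩ := exists_val h hx a
  obtain ⟨g, hg1, hg2⟩ := hD.top z hz2 hz3 (by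
    rw [← ev_tr h hD (f a)⁻¹ hz2 hz3]
    refine Eq.trans (finsum_mem_congr rfl fun t _ => ?_) (congrFun hm a)
    show z ((f a)⁻¹ • t) = x.1 a t
    rw [hz1, smul_inv_smul])
  refine ⟨g, hg1, fun t ht ht' h0 => ?_⟩
  rw [hg2 t ht ht' h0, hz1]

/-- a cocycle with the constant value one -/
theorem exists_one (h : Crs f K B) (hD : Dual K B mu n (n + 1)) :
    ∃ x : PC f K B (n + 1), dP h (n + 1) (n + 1 + 1) x = 0 ∧ muP f K B mu (n + 1) x = fun _ => 1 := by
  classical
  obtain ⟨w, hw1, hw2, hw3⟩ := hD.ex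
  refine ⟨⟨fun a s => w ((f a)⁻¹ • s), PC_of h (w := fun _ => w) (fun _ => hw1) w.hasFiniteSupport fun _ s hs => hs⟩, ?_, ?_⟩
  · refine Subtype.ext ?_
    funext a t
    show cobQ K B (n + 1 + 1) (fun s => w ((f a)⁻¹ • s)) t = 0
    rw [cobQ_tr h]
    by_contra h0
    obtain ⟨⟨h1, h2, h3⟩, -⟩ := cobQ_supp h0
    apply h0
    rw [cobQ_of _ h1 h2 h3]
    have h4 := hw2 _ h1 h2 (empty_subset _)
    rwa [sdiff_empty] at h4
  · funext a
    show ∑ᶠ t ∈ mu, w ((f a)⁻¹ • t) = 1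
    rw [ev_tr h hD _ hw1 hw2, hw3]

end Pool.Agent.CD
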