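import Pool.Agent.CE.Chn
import Pool.Agent.CD.Ev

/-!
# Project CD: the chain maps between the chains of `X` and the controlled functions
-/

set_option autoImplicit false
set_option linter.unusedSectionVars false

open Finset Pointwise
open scoped TensorProduct

noncomputable section

namespace Pool.Agent.CD

open Pool.Agent.S11 Pool.Agent.S10 Pool.Agent.H37.TM Pool.Agent.CE

section

variable {H Λ U : Type} [Group H] [Group Λ] [DecidableEq U] [MulAction Λ U] {f : H → Λ} {K B mu : Set (Finset U)} {n : ℕ}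

theorem exc_R (h : Crs f K B) (hD : Dual K B mu n (n + 1)) :
    Exc (C := fun p => PC f K B (n + 1 - p)) (fun p => dP h (n + 1 - (p + 1)) (n + 1 - p)) (augR h mu n) where
  ex := by
    intro p x hx
    by_cases hp : p + 1 ≤ n
    · exact exact_abc h hD (by omega) (by omega) (by omega) hx
    · have h0 : ∀ a : ℕ, a = 0 → ∀ y : PC f K B a, y = 0 := by
        rintro a rfl y
        exact PC_zero h y
      refine ⟨0, ?_⟩
      rw [map_zero]
      exact (h0 _ (by omega) x).symm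
  ex0 := by
    intro x hx
    rw [augR_apply, Prod.mk_eq_zero] at hx
    exact Pool.Agent.CD.exact_mu h hD hx.1 hx.2

end

/-- **The chain maps.** -/
theorem exists_maps {H Λ U V : Type} [Group H] [Countable H] [Group Λ] [DecidableEq U] [MulAction Λ U] [DecidableEq V]
    [MulAction H V] {f : H → Λ} {K B mu : Set (Finset U)} {n : ℕ} {X : Set (Finset V)}
    (h : Crs f K B) (hD : Dual K B mu n (n + 1))
    (hX : SCx H X (∅ : Set (Finset V))) (hac : Acyc X) :
    ∃ (φ : ∀ p, CX X p →ₗ[ZMod 2] PC f K B (n + 1 - p)) (ψ : ∀ p, PC f K B (n + 1 - p) →ₗ[ZMod 2] CX X p ⊗[ZMod 2] (H → ZMod 2))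
      (s : ∀ p, CX X p →ₗ[ZMod 2] CX X (p + 1) ⊗[ZMod 2] (H → ZMod 2)),
      (∀ p g x, φ p (cRep hX (p + 1) g x) = PR h (n + 1 - p) g (φ p x)) ∧
      (∀ p g x, ψ p (PR h (n + 1 - p) g x) = ((cRep hX (p + 1)).tprod (ell H)) g (ψ p x)) ∧
      (∀ p g x, s p (cRep hX (p + 1) g x) = ((cRep hX (p + 1 + 1)).tprod (ell H)) g (s p x)) ∧
      (∀ p x, dP h (n + 1 - (p + 1)) (n + 1 - p) (φ (p + 1) x) = φ p (bdX X (p + 1) x)) ∧
      (∀ p x, (bdX X (p + 1)).rTensor (H → ZMod 2) (ψ (p + 1) x) = ψ p (dP h (n + 1 - (p + 1)) (n + 1 - p) x)) ∧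
      (∀ p x, (bdX X (p + 1 + 1)).rTensor (H → ZMod 2) (s (p + 1) x) =
        (ψ (p + 1) (φ (p + 1) x) + x ⊗ₜ[ZMod 2] (fun _ => 1)) + s p (bdX X (p + 1) x)) := by
  have hCX := cpx_X hX
  have heX := exc_X hX hac
  have hPX : ∀ p, Prj (cRep hX (p + 1)) := fun p => (loc_cRep hX (p + 1)).prj
  have hR := cpx_R h hD
  have heR := Pool.Agent.CD.exc_R h hD
  have hPR : ∀ p, Prj (PR h (n + 1 - p)) := fun p => (loc_PR h (n + 1 - p)).prj
  have hCT := hCX.rTensor (ell H)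
  have heT := heX.rTensor hCX.dd hCX.ed (H → ZMod 2)
  obtain ⟨x₀, hx₀, hx₁⟩ := Pool.Agent.CD.exists_one h hD
  -- the map `φ`
  obtain ⟨φ, hφ1, hφ2, hφ3⟩ := exists_chain hCX hPX hR heR
    (LinearMap.toSpanSingleton (ZMod 2) (PC f K B (n + 1 + 1) × (H → ZMod 2)) (0, fun _ => 1))
    (by
      intro g x
      rw [LinearMap.toSpanSingleton_apply, LinearMap.toSpanSingleton_apply, map_smul]
      refine congrArg (x • ·) ?_
      refine Prod.ext ?_ rfl
      show (0 : PC f K B (n + 1 + 1)) = PR h (n + 1 + 1) g 0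
      rw [map_zero])
    (by
      intro x
      refine ⟨augX X x • x₀, ?_⟩
      rw [map_smul, LinearMap.toSpanSingleton_apply, augR_apply]
      refine congrArg (augX X x • ·) (Prod.ext hx₀ hx₁))
  -- the map `ψ`
  obtain ⟨ψ, hψ1, hψ2, hψ3⟩ := exists_chain hR hPR hCT heT
    ((TensorProduct.mk (ZMod 2) (ZMod 2) (H → ZMod 2) 1) ∘ₗ LinearMap.snd (ZMod 2) (PC f K B (n + 1 + 1)) (H → ZMod 2))
    (by
      rintro g ⟨x, u⟩
      rfl)
    (by
      intro x
      exact LinearMap.rTensor_surjective (H → ZMod 2) (aug_surj hX hac) _)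
  -- the homotopy
  obtain ⟨s, hs1, hs2, hs3⟩ := exists_htpy hCX hPX hCT heT
    (fun p => ψ p ∘ₗ φ p + (TensorProduct.mk (ZMod 2) (CX X p) (H → ZMod 2)).flip (fun _ => 1))
    (by
      intro p g x
      show ψ p (φ p (cRep hX (p + 1) g x)) + (cRep hX (p + 1) g x) ⊗ₜ[ZMod 2] (fun _ => 1) =
        ((cRep hX (p + 1)).tprod (ell H)) g (ψ p (φ p x) + x ⊗ₜ[ZMod 2] (fun _ => 1))
      rw [hφ1, hψ1, map_add]
      rfl)
    (by
      intro p x
      show (bdX X (p + 1)).rTensor (H → ZMod 2) (ψ (p + 1) (φ (p + 1) x) + x ⊗ₜ[ZMod 2] (fun _ => 1)) =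
        ψ p (φ p (bdX X (p + 1) x)) + (bdX X (p + 1) x) ⊗ₜ[ZMod 2] (fun _ => 1)
      rw [map_add, LinearMap.rTensor_tmul]
      refine congrArg (· + _) ?_
      rw [← hφ2]
      exact hψ2 p _)
    (by
      intro x
      show (augX X).rTensor (H → ZMod 2) (ψ 0 (φ 0 x) + x ⊗ₜ[ZMod 2] (fun _ => 1)) = 0
      have h1 := hψ3 (φ 0 x)
      have h2 := hφ3 x
      rw [map_add, LinearMap.rTensor_tmul]
      have h3 : (augX X).rTensor (H → ZMod 2) (ψ 0 (φ 0 x)) = augX X x ⊗ₜ[ZMod 2] (fun _ => 1) := by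
        refine h1.trans ?_
        rw [h2]
        show (1 : ZMod 2) ⊗ₜ[ZMod 2] (augX X x • (fun _ => 1 : H → ZMod 2)) = _
        rw [← TensorProduct.smul_tmul, smul_eq_mul, mul_one]
      rw [h3]
      exact add_self_tt _)
  exact ⟨φ, ψ, s, hφ1, hψ1, hs1, hφ2, hψ2, hs3⟩

end Pool.Agent.CD
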