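import Pool.Agent.CE.Ind
import Pool.Agent.CD.Chn

/-!
# Project CD: the downward induction on the degree, for all modules of coefficients
-/

set_option autoImplicit false
set_option linter.unusedSectionVars false

open Finset Pointwise
open scoped TensorProduct

noncomputable section

namespace Pool.Agent.CD

open Pool.Agent.S11 Pool.Agent.S10 Pool.Agent.H37.TM Pool.Agent.CE

/-- **Exactness of the chains of `X`** with coefficients in `D ⊗ Y`, for all `Y` -/
theorem exR_all {H Λ U V : Type} [Group H] [Countable H] [Group Λ] [DecidableEq U] [MulAction Λ U] [DecidableEq V]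
    [MulAction H V] {f : H → Λ} {K B mu : Set (Finset U)} {n : ℕ} {X : Set (Finset V)}
    (h : Crs f K B) (hD : Dual K B mu n (n + 1))
    (hX : SCx H X (∅ : Set (Finset V))) (hac : Acyc X) (hdim : ∃ N, ∀ s ∈ X, s.card ≤ N)
    {D : Type} [AddCommGroup D] [Module (ZMod 2) D] (δ : Representation (ZMod 2) H D)
    (hP : ∀ (Y : Type) [AddCommGroup Y] [Module (ZMod 2) Y] (σ : Representation (ZMod 2) H Y) (q : ℕ), 2 * q < n →
      ExR (δ.tprod σ) (PR h (q + 1)) (PR h (q + 1 + 1)) (dP h q (q + 1)) (dP h (q + 1) (q + 1 + 1))) :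
    ∀ q, n < 2 * q → ∀ (Y : Type) [AddCommGroup Y] [Module (ZMod 2) Y] (σ : Representation (ZMod 2) H Y),
      ExR (δ.tprod σ) (cRep hX (q + 1)) (cRep hX q) (bdX X (q + 1)) (bdX X q) := by
  obtain ⟨N, hN⟩ := hdim
  obtain ⟨φ, ψ, s, h1, h2, h3, h4, h5, h6⟩ := Pool.Agent.CD.exists_maps h hD hX hac
  -- the complex of the controlled functions
  have hR : ∀ (Y : Type) [AddCommGroup Y] [Module (ZMod 2) Y] (σ : Representation (ZMod 2) H Y) (p : ℕ), n < 2 * (p + 1) →
      ExR (δ.tprod σ) (PR h (n + 1 - (p + 1))) (PR h (n + 1 - p)) (dP h (n + 1 - (p + 1 + 1)) (n + 1 - (p + 1)))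
        (dP h (n + 1 - (p + 1)) (n + 1 - p)) := by
    intro Y _ _ σ p hp
    have key : ∀ a b c : ℕ, (b = 0 ∨ (b = a + 1 ∧ c = b + 1 ∧ 2 * a < n)) →
        ExR (δ.tprod σ) (PR h b) (PR h c) (dP h a b) (dP h b c) := by
      rintro a b c (rfl | ⟨rfl, rfl, ha⟩)
      · exact exR_of_zero _ _ _ _ _ (PC_zero h)
      · exact hP Y σ a ha
    apply key
    omega
  suffices hk : ∀ k q, N ≤ q + k → n < 2 * q → ∀ (Y : Type) [AddCommGroup Y] [Module (ZMod 2) Y]
      (σ : Representation (ZMod 2) H Y), ExR (δ.tprod σ) (cRep hX (q + 1)) (cRep hX q) (bdX X (q + 1)) (bdX X q) from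
    fun q hq => hk N q (by omega) hq
  intro k
  induction k with
  | zero =>
    intro q hq _ Y _ _ σ
    refine exR_of_zero _ _ _ _ _ fun x => Finsupp.ext fun t => ?_
    exfalso
    have := hN t.1 t.2.1
    rw [t.2.2.2] at this
    omega
  | succ k ih =>
    intro q hq hn Y _ _ σ
    obtain ⟨p, rfl⟩ : ∃ p, q = p + 1 := ⟨q - 1, by omega⟩
    have hT := ih (p + 1 + 1) (by omega) (by omega)
    intro z hz
    obtain ⟨w, hw⟩ := step6 (δ.tprod σ) (ell H) (ρ₁ := cRep hX (p + 1 + 1)) (ρ₀ := cRep hX (p + 1)) (fun _ => 1) (φ (p + 1)) (φ p)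
      (ψ (p + 1 + 1)) (ψ (p + 1)) (s (p + 1)) (s p) (h1 p) (h2 (p + 1)) (h3 p) (h4 p) (h5 (p + 1)) (h6 p) (hR Y σ p hn) hz
    obtain ⟨w', hw'⟩ := step6' (δ := δ) (σ := σ) (ell H) (ρ₁ := cRep hX (p + 1 + 1)) (fun _ => 1) hw
    set Nq : Submodule (ZMod 2) (Y ⊗[ZMod 2] (H → ZMod 2)) := LinearMap.range (jj Y (fun _ : H => (1 : ZMod 2))) with hNq
    refine step7 (τ₂ := δ.tprod (qRep (σ.tprod (ell H)) Nq (range_jj_le σ))) (ρ₂ := cRep hX (p + 1 + 1 + 1))
      (i := (jj Y (fun _ : H => (1 : ZMod 2))).lTensor D) (π := Nq.mkQ.lTensor D)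
      (fun g x => lTensor_tprod δ (fun g x => jj_smul σ g x) g x)
      (fun g x => lTensor_tprod δ (fun g x => mkQ_qRep _ Nq (range_jj_le σ) g x) g x)
      (Module.Flat.lTensor_preserves_injective_linearMap _ jj_inj) (lTensor_exact D ?_ (Submodule.mkQ_surjective _))
      (LinearMap.lTensor_surjective D (Submodule.mkQ_surjective _))
      (d₃ := bdX X (p + 1 + 1 + 1)) (d₂ := bdX X (p + 1 + 1)) (fun g x => bdX_smul hX (p + 1 + 1) g x)
      (fun x => (cpx_X hX).dd (p + 1) x) (loc_cRep hX (p + 1 + 1)) (hT _ _) hw'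
    exact LinearMap.exact_map_mkQ_range _

end Pool.Agent.CD
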