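import Pool.Agent.CE.Bd
import Pool.Agent.CD.Ind

/-!
# Project CD: the exactness of the chains with coefficients in the division ring
-/

set_option autoImplicit false
set_option linter.unusedSectionVars false

open Finset Pointwise
open scoped TensorProduct

namespace Pool.Agent.CD

open Pool.Agent.H37.TM Pool.Agent.H65.RM Pool.Agent.S10 Pool.Agent.S11 Pool.Agent.S14 Pool.Agent.CE
open Pool.Agent.H10.CI (CoarseEmb)

/-- **The exactness of the chains with coefficients in the division ring** -/
theorem exactBd_of_dual {H V U L : Type} [Group H] [Countable H] [DecidableEq V] [MulAction H V] [Group L] [DecidableEq U]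
    [MulAction L U] {X : Set (Finset V)} {K B mu : Set (Finset U)} {n : ℕ} (P : LPack H) (hX : FreeX H X) (hac : Acyc X)
    {f : H → L} (hf : CoarseEmb f) (hD : Dual K B mu n (n + 1)) (hA : PAct L K B) {i : ℕ} (hi : n < 2 * i) :
    ExactBd X (lft P.ι) (i + 1) := by
  have h := crs_of hf hD hA
  have hXs := scx_of_freeX hX
  have hdim : ∃ N, ∀ s ∈ X, s.card ≤ N := by
    obtain ⟨F, hF⟩ := hX.fin
    refine ⟨F.sup Finset.card, fun s hs => ?_⟩
    obtain ⟨g, hg⟩ := hF s hs
    have := Finset.le_sup (f := Finset.card) hg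
    rwa [card_smul_finset] at this
  refine exactBd_of_exR hXs ?_
  refine exR_of_equiv (τ' := (lft P.ι).tprod (Representation.trivial (ZMod 2) H (ZMod 2))) (TensorProduct.rid (ZMod 2) P.D).symm
    (fun g w => ?_) ?_
  · rw [LinearEquiv.symm_apply_eq, TensorProduct.rid_symm_apply, Representation.tprod_apply, TensorProduct.map_tmul,
      TensorProduct.rid_tmul]
    exact (one_smul (ZMod 2) _).symm
  · refine Pool.Agent.CD.exR_all h hD hXs hac hdim (lft P.ι) (fun Y _ _ σ q hq => ?_) i hi (ZMod 2) _
    exact exR_of_ctl h _ (ctl_square h _ q fun q' hq' => ctlExact_of_flat h (flat_sq P.flat) q' (hD.low q' (by omega) (by omega)))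

end Pool.Agent.CD
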