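import Pool.Agent.CD.Defs

/-!
# Project CD: the fundamental cycle exists
-/

set_option autoImplicit false
set_option linter.unusedSectionVars false

open Finset Pointwise

namespace Pool.Agent.CD

open Pool.Agent.H37.TM Pool.Agent.S10

variable {U : Type} [DecidableEq U]

private theorem rel_add {K B : Set (Finset U)} {j : ℕ} {f g : Finset U →₀ ZMod 2} (hf : Rel K B ∅ j f)
    (hg : Rel K B ∅ j g) : Rel K B ∅ j (f + g : Finset U →₀ ZMod 2) := by
  intro t ht
  by_cases h0 : f t = 0
  · refine hg t fun h1 => ht ?_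
    rw [Finsupp.add_apply, h0, h1, add_zero]
  · exact hf t h0

private theorem cob_add {K B : Set (Finset U)} {f g f' g' : Finset U →₀ ZMod 2} (hf : IsCob K B ∅ f f')
    (hg : IsCob K B ∅ g g') : IsCob K B ∅ (f + g : Finset U →₀ ZMod 2) (f' + g' : Finset U →₀ ZMod 2) := by
  intro t h1 h2 h3
  rw [Finsupp.add_apply, ← hf t h1 h2 h3, ← hg t h1 h2 h3, ← sum_add_distrib]
  rfl

/-- the coboundaries -/
def cbd (K B : Set (Finset U)) (n : ℕ) : Submodule (ZMod 2) (Finset U →₀ ZMod 2) where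
  carrier := {f | Rel K B ∅ (n + 1) f ∧ Cobd K B n f}
  add_mem' := by
    rintro a b ⟨ha, g, hg, hga⟩ ⟨hb, g', hg', hgb⟩
    exact ⟨rel_add ha hb, g + g', rel_add hg hg', cob_add hga hgb⟩
  zero_mem' := ⟨fun t ht => absurd rfl ht, 0, fun t ht => absurd rfl ht, fun t _ _ _ => by simp⟩
  smul_mem' := by
    intro r a ha
    rcases (show r = 0 ∨ r = 1 by revert r; decide) with rfl | rfl
    · rw [zero_smul]
      exact ⟨fun t ht => absurd rfl ht, 0, fun t ht => absurd rfl ht, fun t _ _ _ => by simp⟩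
    · rwa [one_smul]

/-- the coboundary of one simplex -/
private theorem cbd_single {K B : Set (Finset U)} {n : ℕ} (hK : ∀ s ∈ K, {t | t ∈ K ∧ s ⊆ t}.Finite) {s : Finset U}
    (hs : s ∈ K) (hB : s ∉ B) (hc : s.card = n) :
    ∃ F : Finset (Finset U), (∀ t, t ∈ F ↔ t ∈ K ∧ t ∉ B ∧ s ⊆ t ∧ t.card = n + 1) ∧
      (∑ t ∈ F, Finsupp.single t (1 : ZMod 2)) ∈ cbd K B n := by
  classical
  have hF : {t | t ∈ K ∧ t ∉ B ∧ s ⊆ t ∧ t.card = n + 1}.Finite := (hK s hs).subset fun t ht => ⟨ht.1, ht.2.2.1⟩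
  have hmem : ∀ t, t ∈ hF.toFinset ↔ t ∈ K ∧ t ∉ B ∧ s ⊆ t ∧ t.card = n + 1 := fun t => by
    rw [Set.Finite.mem_toFinset]
    rfl
  have hval : ∀ t, (∑ t ∈ hF.toFinset, Finsupp.single t (1 : ZMod 2)) t = if t ∈ hF.toFinset then 1 else 0 := by
    intro t
    rw [Finsupp.finsetSum_apply]
    simp only [Finsupp.single_apply]
    rw [Finset.sum_ite_eq' hF.toFinset t fun _ => (1 : ZMod 2)]
  refine ⟨hF.toFinset, hmem, ?_, Finsupp.single s 1, ?_, ?_⟩
  · intro t ht
    rw [hval] at ht
    split_ifs at ht with h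
    · obtain ⟨h1, h2, -, h4⟩ := (hmem t).1 h
      exact ⟨h1, h2, empty_subset _, h4⟩
    · exact absurd rfl ht
  · intro t ht
    have h1 : s = t := by
      by_contra h
      exact ht (Finsupp.single_eq_of_ne (Ne.symm h))
    subst h1
    exact ⟨hs, hB, empty_subset _, hc⟩
  · intro t h1 h2 _
    rw [hval, sdiff_empty]
    simp only [Finsupp.single_apply]
    by_cases h : t ∈ hF.toFinset
    · rw [if_pos h]
      obtain ⟨-, -, h3, h4⟩ := (hmem t).1 h
      obtain ⟨v, hv⟩ : (t \ s).Nonempty := by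
        rw [← card_pos, card_sdiff_of_subset h3]
        omega
      rw [mem_sdiff] at hv
      have h5 : t.erase v = s := by
        symm
        refine eq_of_subset_of_card_le (subset_erase.2 ⟨h3, hv.2⟩) ?_
        rw [card_erase_of_mem hv.1]
        omega
      rw [Finset.sum_eq_single v]
      · rw [if_pos h5.symm]
      · intro w hw hne
        refine if_neg fun h6 => ?_
        have h7 : w ∉ s := by
          rw [h6]
          exact notMem_erase w t
        rw [← h5] at h7
        exact h7 (mem_erase.2 ⟨hne, hw⟩)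
      · exact fun h6 => absurd hv.1 h6
    · rw [if_neg h]
      refine sum_eq_zero fun v hv => if_neg fun h3 => h ?_
      rw [hmem]
      refine ⟨h1, h2, ?_, ?_⟩
      · rw [h3]
        exact erase_subset _ _
      · rw [← hc, h3, card_erase_of_mem hv]
        have : 0 < t.card := card_pos.2 ⟨v, hv⟩
        omega

/-- **the fundamental cycle exists** -/
theorem exists_mu {K B : Set (Finset U)} {n : ℕ} (h : CDual K B n) : ∃ mu : Set (Finset U), Dual K B mu n (n + 1) := by
  classical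
  obtain ⟨f₀, hf₀, hn, hall⟩ := h.one
  have hnot : f₀ ∉ cbd K B n := fun h1 => hn h1.2
  obtain ⟨l, hl1, hl2⟩ := Submodule.exists_le_ker_of_notMem hnot
  have hl0 : ∀ f ∈ cbd K B n, l f = 0 := fun f hf => LinearMap.mem_ker.1 (hl2 hf)
  have h01 : ∀ a : ZMod 2, a ≠ 0 → a = 1 := by decide
  have hl3 : l f₀ = 1 := h01 _ hl1
  set mu : Set (Finset U) := {t | (t ∈ K ∧ t ∉ B ∧ t.card = n + 1) ∧ l (Finsupp.single t 1) = 1} with hmu
  have hev : ∀ f : Finset U →₀ ZMod 2, Rel K B ∅ (n + 1) f → ∑ᶠ t ∈ mu, f t = l f := by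
    intro f hf
    have h1 : ∑ᶠ t ∈ mu, f t = ∑ t ∈ f.support, f t * l (Finsupp.single t 1) := by
      rw [finsum_mem_def, finsum_eq_sum_of_support_subset (s := f.support)]
      · refine sum_congr rfl fun t ht => ?_
        rw [Finsupp.mem_support_iff] at ht
        have h2 := hf t ht
        by_cases h3 : t ∈ mu
        · rw [Set.indicator_of_mem h3, h3.2, mul_one]
        · rw [Set.indicator_of_notMem h3]
          have h4 : l (Finsupp.single t 1) = 0 := by
            by_contra h5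
            exact h3 ⟨⟨h2.1, h2.2.1, h2.2.2.2⟩, h01 _ h5⟩
          rw [h4, mul_zero]
      · intro t ht
        rw [Function.mem_support] at ht
        rw [mem_coe, Finsupp.mem_support_iff]
        intro h2
        apply ht
        by_cases h3 : t ∈ mu
        · rw [Set.indicator_of_mem h3, h2]
        · rw [Set.indicator_of_notMem h3]
    rw [h1]
    conv_rhs => rw [← Finsupp.sum_single f]
    rw [Finsupp.sum, map_sum]
    refine sum_congr rfl fun t _ => ?_
    rw [← smul_eq_mul, ← map_smul, Finsupp.smul_single, smul_eq_mul, mul_one]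
  refine ⟨mu,
    { ne := h.ne
      down := h.down
      bd_sub := h.bd_sub
      bd_down := h.bd_down
      locfin := h.locfin
      mu_sub := fun t ht => ht.1
      even := ?_
      low := fun j hj _ f hf hf' => h.low j hj f ⟨hf, hf'⟩
      top := ?_
      ex := ?_ }⟩
  · intro s hs hB hc
    obtain ⟨F, hF, hF'⟩ := cbd_single (n := n) h.locfin hs hB hc
    have h1 := hl0 _ hF'
    rw [map_sum] at h1
    have h2 : {t | t ∈ mu ∧ s ⊆ t} = ((F.filter fun t => l (Finsupp.single t 1) = 1 : Finset (Finset U)) : Set (Finset U)) := by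
      ext t
      rw [Finset.mem_coe, mem_filter, hF]
      constructor
      · rintro ⟨⟨⟨h3, h4, h5⟩, h6⟩, h7⟩
        exact ⟨⟨h3, h4, h7, h5⟩, h6⟩
      · rintro ⟨⟨h3, h4, h5, h6⟩, h7⟩
        exact ⟨⟨⟨h3, h4, h6⟩, h7⟩, h5⟩
    rw [h2, Set.ncard_coe_finset]
    rw [← ZMod.natCast_eq_zero_iff_even, ← h1, card_eq_sum_ones, Nat.cast_sum, sum_filter]
    refine sum_congr rfl fun t _ => ?_
    split_ifs with h3
    · rw [h3, Nat.cast_one]
    · by_contra h4
      exact h3 (h01 _ (Ne.symm h4))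
  · intro f hf hf' h0
    rw [hev f hf] at h0
    rcases hall f ⟨hf, hf'⟩ with h1 | h1
    · exact h1
    · exfalso
      have h2 := hl0 (f + f₀) ⟨rel_add hf hf₀.1, h1⟩
      rw [map_add, h0, hl3, zero_add] at h2
      exact one_ne_zero h2
  · exact ⟨f₀, hf₀.1, hf₀.2, by rw [hev f₀ hf₀.1, hl3]⟩

end Pool.Agent.CD
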