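import Pool.Agent.CD.End
import Pool.Agent.CD.Mu
import Pool.Agent.CE.Final
import Pool.Agent.PQ.Final

/-!
# Project CD: the theorem
-/

set_option autoImplicit false
set_option linter.unusedSectionVars false

open Finset Pointwise

namespace Pool.Agent.CD

open Pool.Agent.H37.TM Pool.Agent.H65.RM Pool.Agent.S10 Pool.Agent.S11 Pool.Agent.S14 Pool.Agent.TW Pool.Agent.CE
open Pool.Agent.PQ
open Pool.Agent.H10.CI (CoarseEmb)

section

variable {U : Type} [DecidableEq U]

/-- a fundamental cycle in both cases -/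
theorem dual_of_cd {K B : Set (Finset U)} {n : ℕ} (h : (Mfd K B n ∧ AcycLt K (n + 1)) ∨ CDual K B n) :
    ∃ mu : Set (Finset U), Dual K B mu n (n + 1) := by
  rcases h with ⟨h1, h2⟩ | h
  · exact ⟨_, dual_of_mfd h1 h2⟩
  · exact exists_mu h

/-- a duality pair has the cohomology of a manifold -/
theorem CDual.of_dual {K B mu : Set (Finset U)} {n : ℕ} (h : Dual K B mu n (n + 1))
    (hev : ∀ b z : Finset U →₀ ZMod 2, Rel K B ∅ n b → Rel K B ∅ (n + 1) z → IsCob K B ∅ b z → ∑ᶠ t ∈ mu, z t = 0) :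
    CDual K B n where
  ne := h.ne
  down := h.down
  bd_sub := h.bd_sub
  bd_down := h.bd_down
  locfin := h.locfin
  low := fun j hj f hf => h.low j hj (by omega) f hf.1 hf.2
  one := by
    obtain ⟨f₀, h1, h2, h3⟩ := h.ex
    refine ⟨f₀, ⟨h1, h2⟩, ?_, fun f hf => ?_⟩
    · rintro ⟨b, hb, hb'⟩
      rw [hev b f₀ hb h1 hb'] at h3
      exact zero_ne_one h3
    · by_cases h0 : ∑ᶠ t ∈ mu, f t = 0
      · exact Or.inl (h.top f hf.1 hf.2 h0)
      · right
        have h01 : ∀ a : ZMod 2, a ≠ 0 → a = 1 := by decide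
        have h4 : ∑ᶠ t ∈ mu, f t = 1 := h01 _ h0
        refine h.top (f + f₀) ?_ ?_ ?_
        · intro t ht
          by_cases h5 : f t = 0
          · refine h1 t fun h6 => ht ?_
            rw [Finsupp.add_apply, h5, h6, add_zero]
          · exact hf.1 t h5
        · intro t ht ht' hs
          have h5 := hf.2 t ht ht' hs
          have h6 := h2 t ht ht' hs
          simp only [Finsupp.add_apply, sum_add_distrib, h5, h6]
          exact add_zero _
        · have h5 : ∑ᶠ t ∈ mu, (f t + f₀ t) = ∑ᶠ t ∈ mu, f t + ∑ᶠ t ∈ mu, f₀ t :=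
            finsum_mem_add_distrib' (f.hasFiniteSupport.subset Set.inter_subset_right)
              (f₀.hasFiniteSupport.subset Set.inter_subset_right)
          rw [show ∑ᶠ t ∈ mu, (f + f₀) t = ∑ᶠ t ∈ mu, (f t + f₀ t) from rfl, h5, h4, h3]
          decide

end

/-- the theorem if the whole group is embedded -/
theorem main_cd {V U P L : Type} [DecidableEq V] [DecidableEq U] [Group P] [MulAction P V] [Group L] [MulAction L U]
    {X : Set (Finset V)} (hG : IsGeomS P X) (hac : Acyc X) (J : Subgroup P) (hJ : J.FiniteIndex)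
    (hU : RAL J ∨ Tower (⊤ : Subgroup J)) {f : P → L} (hf : CoarseEmb f) {M B : Set (Finset U)} {n : ℕ}
    (hM : (Mfd M B n ∧ AcycLt M (n + 1)) ∨ CDual M B n) (hA : PAct L M B) (i : ℕ) (hn : n < 2 * i) : L2ZeroS X i := by
  have hGJ : IsGeomS J X := hG.sub J
  have : Countable J := countable_of_geom hGJ hac
  have hU' : Cls J := hU
  obtain ⟨lo, ⟨D⟩⟩ := hU'.exists_lpack
  obtain ⟨mu, hD⟩ := dual_of_cd hM
  exact end_cd D (hGJ.freeX fun g k hk h => LO.tf hk h) hac (coarse_sub hf J) hD hA hn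

/-- **The theorem.** -/
theorem cd_main {V W U G Q L : Type} [DecidableEq V] [DecidableEq W] [DecidableEq U] [Group G] [MulAction G V] [Group Q]
    [MulAction Q W] [Group L] [MulAction L U] {X : Set (Finset V)} (hX : Acyc X) (hXR : AcR X) (hG : IsGeomS G X)
    (H : Subgroup G) (hH : H.FiniteIndex) (hU : RAL H ∨ Tower (⊤ : Subgroup H)) {Y : Set (Finset W)} (hY : AcR Y)
    (hQ : IsGeomS Q Y) {f : G → Q} (hf : CoarseEq f) {e : Q → L} (he : CoarseEmb e) {M B : Set (Finset U)} {n : ℕ}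
    (hM : (Mfd M B n ∧ AcycLt M (n + 1)) ∨ CDual M B n) (hA : PAct L M B) (i : ℕ) (hn : n < 2 * i) : L2ZeroS Y i :=
  l2zero_of_coarse hG hQ hXR hY hf.toCoarseEmb hf.onto
    (main_cd hG hX H hH hU (coarse_comp he hf.toCoarseEmb) hM hA i hn)

end Pool.Agent.CD
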